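import Pool.Agent.H538.S9

set_option autoImplicit false

/-!
# Buchstab's law for the exponents: the Lenstra-Pomerance-Wagstaff heuristic at every level of sifting

For a base `b ≥ 2`, a real `β > 0` and a prime `p` let `N b β p` be the largest integer below `β * b ^ p`; for `b = 2`
and `β = 1` this is the Mersenne number `2 ^ p - 1`, all of whose prime factors exceed `p`.  The heuristic behind the
conjecture says that `N` behaves like a random integer conditioned only by its prime factors up to `p`, so for every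
`u > 1` the probability that `N` has no prime factor in `(p, N ^ (1 / u)]` should be
`e ^ γ * u * ω(u) * log p / (p * log b)`, with Buchstab's function `ω`; for `u = 2` (where `u * ω(u) = 1`) and the
Mersenne numbers this is the conjecture itself, and the factor `e ^ γ` is the difference between the conjectures of
Gillies and of Lenstra, Pomerance and Wagstaff.

We prove this for almost every `β`, with the base fixed, simultaneously for ALL `u > 1`, and for the exponents in any
given set `S` of primes of divergent weight `∑ log p / p`, however sparse: the number of `p ≤ n` in `S` for which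
`N b β p` has no prime factor in `(p, N ^ (1 / u)]` is asymptotic to `(e ^ γ / log b) * u * ω(u) * V S n`.

Proof.  Buchstab's asymptotic formula `u ω(u) y / log X` for the integers without prime factors up to `X ^ (1 / u)` is
proved for the short intervals `(X - y, X]`, `y = X ^ (1 - κ)`, by induction over the Buchstab identity, from the
prime number theorem in short intervals (`H538/S1`, `S2`, `S3`); summing over the `p`-smooth part gives the local
density of the events (`S4`, `S5`, `S9`), with Mertens' constant `e ^ γ`.  For two exponents `p < q` with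
`q - p ≥ δ q` the event at `p` is determined by the leading digits at `q`, so that the local density gives
asymptotic independence; for `q - p < δ q` the two-dimensional upper bound sieve bounds the correlation and the sparsity
of the primes in short intervals makes the sum negligible (`S6`, `S7`, `S8`).
-/

namespace Pool.Agent.Results.MP_9b2bac_nt.BuchstabLaw

open Filter Topology MeasureTheory

/-- The largest integer below `β * b ^ p` (for `β > 0`). -/
noncomputable def N (b : ℕ) (β : ℝ) (p : ℕ) : ℕ := ⌈β * (b : ℝ) ^ p⌉₊ - 1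

open Classical in
/-- The number of primes `p ≤ n` in `S` for which `N b β p` has no prime factor `l` with
`p < l ≤ (N b β p) ^ (1 / u)`. -/
noncomputable def R (b : ℕ) (S : Set ℕ) (β u : ℝ) (n : ℕ) : ℕ :=
  ((Finset.range (n + 1)).filter (fun p => p.Prime ∧ p ∈ S ∧
    ∀ l : ℕ, l.Prime → p < l → (l : ℝ) ≤ (N b β p : ℝ) ^ (1 / u) → ¬ l ∣ N b β p)).card

open Classical in
/-- The number of primes `p ≤ n` in `S` for which the Mersenne number `2 ^ p - 1` is prime. -/
noncomputable def M (S : Set ℕ) (n : ℕ) : ℕ :=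
  ((Finset.range (n + 1)).filter (fun p => p.Prime ∧ p ∈ S ∧ (2 ^ p - 1).Prime)).card

open Classical in
/-- The sum of `log p / p` over the primes `p ≤ n` in the set `S`. -/
noncomputable def V (S : Set ℕ) (n : ℕ) : ℝ :=
  ∑ p ∈ (Finset.range (n + 1)).filter (fun p => p.Prime ∧ p ∈ S), Real.log p / p

/-- `ω` is Buchstab's function: it is continuous on `[1, ∞)`, `u ω(u) = 1` for `1 ≤ u ≤ 2` and
`u ω(u) = 1 + ∫_1^(u-1) ω` for `u ≥ 2`. -/
def IsBuchstab (ω : ℝ → ℝ) : Prop :=
  ContinuousOn ω (Set.Ici 1) ∧ (∀ u, 1 ≤ u → u ≤ 2 → u * ω u = 1) ∧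
    ∀ u, 2 ≤ u → u * ω u = 1 + ∫ s in (1 : ℝ)..(u - 1), ω s

theorem isBuchstab_om : IsBuchstab Pool.Agent.R529.BU.om :=
  ⟨Pool.Agent.R529.BU.om_cont.continuousOn, Pool.Agent.R529.BU.om_one_two, Pool.Agent.R529.BU.om_two⟩

theorem unique_aux (ω : ℝ → ℝ) (h : IsBuchstab ω) (n : ℕ) :
    ∀ u : ℝ, 1 ≤ u → u ≤ n + 2 → ω u = Pool.Agent.R529.BU.om u := by
  obtain ⟨-, h1, h2⟩ := h
  have hbase : ∀ u : ℝ, 1 ≤ u → u ≤ 2 → ω u = Pool.Agent.R529.BU.om u := by
    intro u hu1 hu2
    have a1 := h1 u hu1 hu2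
    have a2 := Pool.Agent.R529.BU.om_one_two u hu1 hu2
    exact mul_left_cancel₀ (show u ≠ 0 by linarith) (a1.trans a2.symm)
  induction n with
  | zero =>
    intro u hu1 hu2
    exact hbase u hu1 (by push_cast at hu2; linarith)
  | succ n ih =>
    intro u hu1 hu2
    rcases le_total u 2 with h3 | h3
    · exact hbase u hu1 h3
    · have a1 := h2 u h3
      have a2 := Pool.Agent.R529.BU.om_two u h3
      have a3 : ∫ s in (1 : ℝ)..(u - 1), ω s = ∫ s in (1 : ℝ)..(u - 1), Pool.Agent.R529.BU.om s := by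
        apply intervalIntegral.integral_congr
        intro s hs
        rw [Set.uIcc_of_le (by linarith)] at hs
        push_cast at hu2
        exact ih s hs.1 (by linarith [hs.2])
      rw [a3, ← a2] at a1
      exact mul_left_cancel₀ (show u ≠ 0 by linarith) a1

theorem unique (ω : ℝ → ℝ) (h : IsBuchstab ω) (u : ℝ) (hu : 1 ≤ u) : ω u = Pool.Agent.R529.BU.om u :=
  unique_aux ω h ⌈u⌉₊ u hu (by linarith [Nat.le_ceil u])

lemma N_one (p : ℕ) : N 2 1 p = 2 ^ p - 1 := by
  have e1 : ⌈(1 : ℝ) * ((2 : ℕ) : ℝ) ^ p⌉₊ = 2 ^ p := by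
    rw [one_mul]
    have : (((2 : ℕ) : ℝ) ^ p) = ((2 ^ p : ℕ) : ℝ) := by push_cast; rfl
    rw [this, Nat.ceil_natCast]
  unfold N
  rw [e1]

/-- the prime factors of `2 ^ p - 1` exceed `p` -/
lemma factor_lt {p l : ℕ} (hp : p.Prime) (hl : l.Prime) (hd : l ∣ 2 ^ p - 1) : p < l := by
  have : Fact l.Prime := ⟨hl⟩
  have : Fact p.Prime := ⟨hp⟩
  have h1 : (2 : ZMod l) ^ p = 1 := by
    have h3 : ((2 ^ p - 1 : ℕ) : ZMod l) = 0 := (ZMod.natCast_eq_zero_iff _ _).2 hd
    rw [Nat.cast_sub Nat.one_le_two_pow] at h3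
    push_cast at h3
    exact sub_eq_zero.1 h3
  have h2 : (2 : ZMod l) ≠ 1 := by
    intro h
    have : (1 : ZMod l) = 0 := by linear_combination h
    exact one_ne_zero this
  have h4 : orderOf (2 : ZMod l) = p := orderOf_eq_prime h1 h2
  have h5 : (2 : ZMod l) ≠ 0 := by
    intro h
    rw [h, zero_pow hp.ne_zero] at h1
    exact zero_ne_one h1
  have h6 : orderOf (2 : ZMod l) ∣ l - 1 := orderOf_dvd_of_pow_eq_one (ZMod.pow_card_sub_one_eq_one h5)
  rw [h4] at h6
  have h7 : p ≤ l - 1 := Nat.le_of_dvd (by have := hl.two_le; omega) h6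
  have := hl.two_le
  omega

lemma prime_iff {p : ℕ} (hp : p.Prime) : (2 ^ p - 1).Prime ↔
    ∀ l : ℕ, l.Prime → p < l → (l : ℝ) ≤ ((2 ^ p - 1 : ℕ) : ℝ) ^ ((1 : ℝ) / 2) → ¬ l ∣ 2 ^ p - 1 := by
  have hM : 3 ≤ 2 ^ p - 1 := by
    have : 2 ^ 2 ≤ 2 ^ p := Nat.pow_le_pow_right (by norm_num) hp.two_le
    omega
  constructor
  · intro h l hl _ hle hd
    have h1 := (Nat.prime_dvd_prime_iff_eq hl h).1 hd
    rw [h1, ← Real.sqrt_eq_rpow, Real.le_sqrt' (by exact_mod_cast (by omega : 0 < 2 ^ p - 1))] at hle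
    have h2 : (2 ^ p - 1) ^ 2 ≤ 2 ^ p - 1 := by exact_mod_cast hle
    nlinarith
  · intro h
    by_contra hc
    have h1 := Nat.minFac_prime (n := 2 ^ p - 1) (by omega)
    have h2 := Nat.minFac_dvd (2 ^ p - 1)
    refine h _ h1 (factor_lt hp h1 h2) ?_ h2
    have h3 := Nat.minFac_sq_le_self (n := 2 ^ p - 1) (by omega) hc
    rw [← Real.sqrt_eq_rpow]
    refine Real.le_sqrt_of_sq_le ?_
    exact_mod_cast h3

lemma log_law : Tendsto (fun n : ℕ => V Set.univ n / Real.log n) atTop (𝓝 1) := by
  classical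
  refine Pool.Agent.H305R2.mertens_ratio.congr fun n => ?_
  congr 1
  unfold V
  refine Finset.sum_congr ?_ fun _ _ => rfl
  ext p
  simp only [Finset.mem_filter, Finset.mem_Icc, Finset.mem_range, Set.mem_univ, and_true]
  constructor
  · rintro ⟨⟨h1, h2⟩, h3⟩
    exact ⟨by omega, h3⟩
  · rintro ⟨h1, h3⟩
    exact ⟨⟨h3.one_lt.le, by omega⟩, h3⟩

lemma V_univ_tendsto : Tendsto (V Set.univ) atTop atTop := by
  have h1 : Tendsto (fun n : ℕ => Real.log n) atTop atTop :=
    Real.tendsto_log_atTop.comp tendsto_natCast_atTop_atTop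
  have h2 : Tendsto (fun n : ℕ => V Set.univ n / Real.log n * Real.log n) atTop atTop :=
    log_law.pos_mul_atTop one_pos h1
  refine h2.congr' ?_
  filter_upwards [h1.eventually_gt_atTop 0] with n hn
  field_simp

/-- For `b = 2`, `β = 1` and `u = 2` the counting function is that of the Mersenne primes of the conjecture; Buchstab's
function exists (and is unique on `[1, ∞)`, see `unique`); and for every base `b ≥ 2` and every set `S` of primes of
divergent weight, for almost every `β > 0`, simultaneously for every `u > 1`, the number of `p ≤ n` in `S` for which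
the largest integer `N` below `β * b ^ p` has no prime factor in `(p, N ^ (1 / u)]` is asymptotic to
`(e ^ γ / log b) * (u * ω u) * V S n`; for all primes this is `(e ^ γ / log b) * (u * ω u) * log n`. -/
theorem result :
    (∀ p : ℕ, N 2 1 p = 2 ^ p - 1) ∧
    (∀ (S : Set ℕ) (n : ℕ), R 2 S 1 2 n = M S n) ∧
    (∃ ω, IsBuchstab ω) ∧
    (∀ ω, IsBuchstab ω → ∀ b : ℕ, 2 ≤ b →
      (∀ S : Set ℕ, Tendsto (V S) atTop atTop → ∀ᵐ β : ℝ, 0 < β → ∀ u : ℝ, 1 < u →
        Tendsto (fun n : ℕ => (R b S β u n : ℝ) / V S n) atTop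
          (𝓝 (Real.exp Real.eulerMascheroniConstant / Real.log b * (u * ω u)))) ∧
      (∀ᵐ β : ℝ, 0 < β → ∀ u : ℝ, 1 < u →
        Tendsto (fun n : ℕ => (R b Set.univ β u n : ℝ) / Real.log n) atTop
          (𝓝 (Real.exp Real.eulerMascheroniConstant / Real.log b * (u * ω u))))) := by
  classical
  have hR : ∀ (b : ℕ) (S : Set ℕ) (β u : ℝ) (n : ℕ), R b S β u n = Pool.Agent.H538.cR b S β u n :=
    fun _ _ _ _ _ => rfl
  have hV : ∀ S : Set ℕ, V S = Pool.Agent.H538.vS S := fun _ => rfl
  have key : ∀ ω, IsBuchstab ω → ∀ b : ℕ, 2 ≤ b → ∀ S : Set ℕ, Tendsto (V S) atTop atTop →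
      ∀ᵐ β : ℝ, 0 < β → ∀ u : ℝ, 1 < u →
        Tendsto (fun n : ℕ => (R b S β u n : ℝ) / V S n) atTop
          (𝓝 (Real.exp Real.eulerMascheroniConstant / Real.log b * (u * ω u))) := by
    intro ω hω b hb S hS
    filter_upwards [Pool.Agent.H538.buchstab_law hb S hS] with β hβ h0 u hu
    have h1 := hβ h0 u hu
    rw [unique ω hω u hu.le]
    exact h1
  refine ⟨N_one, fun S n => ?_, ⟨_, isBuchstab_om⟩, fun ω hω b hb => ⟨key ω hω b hb, ?_⟩⟩
  · unfold R M
    congr 1
    ext p
    simp only [Finset.mem_filter]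
    refine and_congr_right fun _ => and_congr_right fun hp => and_congr_right fun _ => ?_
    rw [N_one, prime_iff hp]
  · filter_upwards [key ω hω b hb Set.univ V_univ_tendsto] with β hβ h0 u hu
    have h1 := (hβ h0 u hu).mul log_law
    rw [mul_one] at h1
    refine h1.congr' ?_
    filter_upwards [V_univ_tendsto.eventually_gt_atTop 0] with n hn
    field_simp

end Pool.Agent.Results.MP_9b2bac_nt.BuchstabLaw
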