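import Mathlib
import Pool.Agent.H556.FX.NearSFin
import Pool.Agent.H556.ME.Runs
import Pool.Agent.H556.ME.AllS

/-!
# Divisors of the Mersenne numbers

The Lenstra-Pomerance-Wagstaff heuristics for the exponents of the Mersenne primes rests on the
assumption that `2 ^ p - 1` has no structured divisors (besides the congruences for its prime
factors), and that the structured divisors of `2 ^ n - 1`, `n` composite, are the algebraic ones. Here
we prove, for all large exponents, theorems of this kind. Let `M_n = 2 ^ n - 1`.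

(1) All `n`. Let `S` be a finite set of primes and `g` a sum of `r` terms `c u`, `|c| ≤ M_n ^ η`, `u` an `S`-unit
with numerator and denominator at most `M_n ^ K` (for instance `2 ^ a ± 3 ^ b ± 5 ^ c`). If (the numerator
of) `g` is not divisible by the largest divisor of `M_n` which is prime to `S`, then
`gcd (M_n, g) < M_n ^ (1 - 1 / r + δ)`.

(2) All `n`. If `d` is a divisor of `M_n`, and a multiple `m < M_n` of `d` has `r` ones in the binary
expansion, then `d < M_n ^ (1 - 1 / r + δ)`. This (and (1)) is sharp: `r ∣ n`,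
`m = d = (2 ^ n - 1) / (2 ^ (n / r) - 1)`.

(3) Primes `p`, a divisor `a = M_p ^ t` of `M_p`, `ε ≤ t ≤ 1 - ε`: for every real algebraic `α` and all
numbers `u = (c / d) w`, `w` an `S`-unit of height at most `M_p ^ K`, `|c|, |d| ≤ M_p ^ η`, we have
`|a - α u| > M_p ^ (t ^ 2 - ε)`.

(4) For the same `a`, if `u`, `v` are coprime integers composed of the primes of `S`, of absolute value
at most `M_p ^ K`, and `c`, `d` are nonzero integers of absolute value at most `M_p ^ η`, then the part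
of `c u a + d v` which is prime to `S` is greater than `max (|u| a, |v|) M_p ^ (-t (1 - t) - ε)`.
For instance a divisor `k 2 ^ n + 1 = M_p ^ t` has `2 ^ n < M_p ^ (t (1 - t) + ε)`.
-/

set_option autoImplicit false

namespace Pool.Agent.Results.MP_9b2bac_nt.DivisorsOfMersenneNumbers

/-- the Mersenne number `2 ^ n - 1` -/
def M (n : ℕ) : ℕ := 2 ^ n - 1

/-- `u = (c / d) w`, where `c`, `d` are integers of absolute value at most `C`, and `w` is a nonzero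
rational number with numerator and denominator at most `H` (in absolute value), both composed of the
primes of `S`. -/
def AlmostUnit (S : Finset ℕ) (C H : ℝ) (u : ℚ) : Prop :=
  ∃ (c d : ℤ) (w : ℚ), d ≠ 0 ∧ |(c : ℝ)| ≤ C ∧ |(d : ℝ)| ≤ C ∧ w ≠ 0 ∧
    (∀ l : ℕ, l.Prime → (l ∣ w.num.natAbs ∨ l ∣ w.den) → l ∈ S) ∧
    |(w.num : ℝ)| ≤ H ∧ (w.den : ℝ) ≤ H ∧ u = (c : ℚ) / d * w

/-- the `i`-th binary digit of `m` (from the right, `i = 0, 1, …`) -/
def digit (m i : ℕ) : ℕ := m / 2 ^ i % 2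

/-- the number of the ones among the `N` lowest binary digits of `m` -/
def ones (m N : ℕ) : ℕ := ((Finset.range N).filter fun i => digit m i = 1).card

/-- `g` is a sum of `r` terms `c u`, where `c` is an integer of absolute value at most `C` and `u` is a
nonzero rational number with numerator and denominator at most `H` (in absolute value), whose prime
factors (of the numerator and of the denominator) belong to `S`. -/
def IsShort (S : Finset ℕ) (r : ℕ) (C H : ℝ) (g : ℚ) : Prop :=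
  ∃ (c : Fin r → ℤ) (u : Fin r → ℚ), (∀ i, |(c i : ℝ)| ≤ C) ∧ (∀ i, u i ≠ 0) ∧
    (∀ i, ∀ l : ℕ, l.Prime → (l ∣ (u i).num.natAbs ∨ l ∣ (u i).den) → l ∈ S) ∧
    (∀ i, |((u i).num : ℝ)| ≤ H ∧ ((u i).den : ℝ) ≤ H) ∧ g = ∑ i, (c i : ℚ) * u i

lemma adm : Pool.Agent.H556.FX.Adm 2 1 where
  one_lt := by norm_num
  neg_lt := by norm_num
  lt := by norm_num
  cop := isCoprime_one_right
  pow := by
    rintro r hr ⟨⟨c, hc⟩, -⟩
    have h1 : c.natAbs ^ r = 2 := by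
      have := congrArg Int.natAbs hc
      rw [Int.natAbs_pow] at this
      exact this.symm
    rcases Nat.lt_or_ge c.natAbs 2 with h2 | h2
    · interval_cases h3 : c.natAbs
      · rw [zero_pow (by omega)] at h1
        omega
      · rw [one_pow] at h1
        omega
    · have h3 : 2 ^ 2 ≤ c.natAbs ^ r :=
        (Nat.pow_le_pow_left h2 2).trans (Nat.pow_le_pow_right (by omega) (by omega))
      omega
  four := by
    rintro ⟨c, hc⟩
    have : 0 ≤ c ^ 4 := by positivity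
    omega

lemma M_mul (p : ℕ) : ((M p : ℕ) : ℤ) * (2 - 1) = 2 ^ p - 1 ^ p := by
  rw [M, Nat.cast_sub Nat.one_le_two_pow]
  push_cast
  ring

theorem result :
    -- all exponents
    (∀ (S : Finset ℕ) (r : ℕ) (K δ : ℝ), 0 < δ → ∃ η : ℝ, 0 < η ∧ ∃ B : ℕ, ∀ n ≥ B,
      ∀ q a : ℕ, M n = q * a → (∀ l : ℕ, l.Prime → l ∣ a → l ∈ S) →
      (∀ l ∈ S, l.Prime → ¬ l ∣ q) →
      ∀ g : ℚ, IsShort S r ((M n : ℝ) ^ η) ((M n : ℝ) ^ K) g → ¬ (q : ℤ) ∣ g.num →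
      ((Int.gcd (M n) g.num : ℕ) : ℝ) < (M n : ℝ) ^ (1 - 1 / (r : ℝ) + δ)) ∧
    (∀ (R : ℕ) (δ : ℝ), 0 < δ → ∃ B : ℕ, ∀ n ≥ B, ∀ d m : ℕ, d ∣ M n → d ∣ m → 0 < m → m < M n →
      ones m n ≤ R → (d : ℝ) < (M n : ℝ) ^ (1 - 1 / (ones m n : ℝ) + δ)) ∧
    -- prime exponents
    (∀ (S : Finset ℕ) (α : ℝ), IsAlgebraic ℚ α → ∀ (K ε : ℝ), 0 < ε →
      ∃ η : ℝ, 0 < η ∧ ∃ p₀ : ℕ, ∀ p ≥ p₀, p.Prime → ∀ u : ℚ,
      AlmostUnit S ((M p : ℝ) ^ η) ((M p : ℝ) ^ K) u →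
      ∀ a : ℕ, a ∣ M p → ∀ t : ℝ, ε ≤ t → t ≤ 1 - ε → (a : ℝ) = (M p : ℝ) ^ t →
      (M p : ℝ) ^ (t ^ 2 - ε) < |(a : ℝ) - α * (u : ℝ)|) ∧
    (∀ (S : Finset ℕ) (K ε : ℝ), 0 < ε → ∃ η : ℝ, 0 < η ∧ ∃ p₀ : ℕ, ∀ p ≥ p₀, p.Prime →
      ∀ a : ℕ, a ∣ M p → ∀ t : ℝ, ε ≤ t → t ≤ 1 - ε → (a : ℝ) = (M p : ℝ) ^ t →
      ∀ u v s : ℤ, u ≠ 0 → v ≠ 0 → s ≠ 0 → (∀ l : ℕ, l.Prime → (l : ℤ) ∣ u * v * s → l ∈ S) →
      IsCoprime u v → |(u : ℝ)| ≤ (M p : ℝ) ^ K → |(v : ℝ)| ≤ (M p : ℝ) ^ K →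
      ∀ c d k : ℤ, c ≠ 0 → d ≠ 0 → |(c : ℝ)| ≤ (M p : ℝ) ^ η → |(d : ℝ)| ≤ (M p : ℝ) ^ η →
      c * u * a + d * v = k * s →
      max (|(u : ℝ)| * a) |(v : ℝ)| * (M p : ℝ) ^ (-(t * (1 - t)) - ε) < |(k : ℝ)|) := by
  refine ⟨?_, ?_, ?_, ?_⟩
  · intro S r K δ hδ
    obtain ⟨η, hη, B, h⟩ := Pool.Agent.H556.ME.allS S r K δ hδ
    refine ⟨η, hη, B, fun n hn q a hqa ha hq g hg hgq => ?_⟩
    obtain ⟨c, u, hc, hu0, hu, huB, rfl⟩ := hg
    exact h n hn q a hqa ha hq c u hc hu0 hu huB hgq _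
      (Int.natCast_dvd_natCast.1 (Int.gcd_dvd_left _ _)) (Int.gcd_dvd_right _ _)
  · intro R δ hδ
    obtain ⟨B, h⟩ := Pool.Agent.H556.ME.weight R δ hδ
    exact ⟨B, fun n hn d m hd hdm hm0 hmM hR => h n hn d m hd hdm hm0 hmM _ hR rfl⟩
  · intro S α hα K ε hε
    obtain ⟨η, hη, p₀, h⟩ := Pool.Agent.H556.FX.near' adm S α hα K ε hε
    refine ⟨η, hη, p₀, fun p hp hpp u hu a ha t ht1 ht2 hat => ?_⟩
    obtain ⟨c, d, w, hd0, hc, hd, hw0, hwS, hwn, hwd, rfl⟩ := hu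
    have key := h p hp hpp (M p) (M_mul p) c d w hd0 hc hd hw0 hwS hwn hwd a ha t ht1 ht2 hat
    push_cast
    exact key
  · intro S K ε hε
    obtain ⟨η, hη, p₀, h⟩ := Pool.Agent.H556.FX.sfree' adm S K ε hε
    refine ⟨η, hη, p₀, fun p hp hpp a ha t ht1 ht2 hat u v s hu0 hv0 hs0 hS huv hu hv c d k hc0
      hd0 hc hd hrel => ?_⟩
    exact h p hp hpp (M p) (M_mul p) a ha t ht1 ht2 hat c d u v k s hc0 hd0 hc hd hu0 hv0 hs0 hS
      huv hu hv hrel

end Pool.Agent.Results.MP_9b2bac_nt.DivisorsOfMersenneNumbers
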