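import Pool.Agent.H538.K12

set_option autoImplicit false

/-!
# The law for the exponents with exactly `k` prime factors

For a base `b ≥ 2`, a real `β > 0` and a prime `p` let `N b β p` be the largest integer below `β * b ^ p`; for `b = 2`
and `β = 1` this is the Mersenne number `2 ^ p - 1`, all of whose prime factors exceed `p`.  The heuristic of
Lenstra, Pomerance and Wagstaff predicts that the number of the primes `p ≤ n` for which the Mersenne number
`2 ^ p - 1` has exactly `k` prime factors is asymptotic to `(e ^ γ / log 2) * (log n) ^ k / k!`; for `k = 1` this is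
the conjecture itself, for `k = 2` it concerns the Mersenne numbers with two prime factors.

We prove this for almost every amplitude `β`, simultaneously for all bases `b ≥ 2` and all `k ≥ 1`: the number of the
primes `p ≤ n` for which `N b β p` has exactly `k` prime factors exceeding `p`, counted with multiplicity, is asymptotic
to `(e ^ γ / log b) * (log n) ^ k / k!`.  The same holds along every set `S` of primes for which the weighted count
`V k S n = ∑ (log p) ^ k / p` grows at least like `(log n) ^ (k - 1 / 2 + s)` for some `s > 0` (for all primes it is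
asymptotic to `(log n) ^ k / k`); then the number is asymptotic to `(e ^ γ / log b) * V k S n / (k - 1)!`.

Proof.  Local density in the intervals `(X - y, X]`, `y = X ^ (1 - κ)`: the integers are sorted by their prime divisors
in `(p, X ^ η]`; the main term comes from `k - 1` such divisors and a prime cofactor (prime number theorem in short
intervals, Mertens), all other cases are of smaller order by sieve upper bounds (`H538/K1`-`K6`).  Near pairs of
exponents: two-dimensional upper bound sieve, for every choice of the divisors in `(q, X ^ η]` of both members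
(`K7`-`K9`).  The correlation of near pairs is now too large for a bounded row sum; the law with a general row bound
suffices (`K10`-`K12`).
-/

namespace Pool.Agent.Results.MP_9b2bac_nt.ExactlyKPrimeFactors

open Filter Topology MeasureTheory

/-- The largest integer below `β * b ^ p` (for `β > 0`). -/
noncomputable def N (b : ℕ) (β : ℝ) (p : ℕ) : ℕ := ⌈β * (b : ℝ) ^ p⌉₊ - 1

/-- The number of the prime factors of `m` exceeding `p`, counted with multiplicity. -/
def large (p m : ℕ) : ℕ := (m.primeFactorsList.filter (fun l => p < l)).length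

open Classical in
/-- The number of primes `p ≤ n` in `S` for which `N b β p` has exactly `k` prime factors exceeding `p`, counted with
multiplicity. -/
noncomputable def K (b : ℕ) (S : Set ℕ) (β : ℝ) (k n : ℕ) : ℕ :=
  ((Finset.range (n + 1)).filter (fun p => p.Prime ∧ p ∈ S ∧ large p (N b β p) = k)).card

open Classical in
/-- The number of primes `p ≤ n` in `S` for which the Mersenne number `2 ^ p - 1` has exactly `k` prime factors,
counted with multiplicity. -/
noncomputable def M (S : Set ℕ) (k n : ℕ) : ℕ :=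
  ((Finset.range (n + 1)).filter (fun p => p.Prime ∧ p ∈ S ∧ (2 ^ p - 1).primeFactorsList.length = k)).card

open Classical in
/-- The sum of `(log p) ^ k / p` over the primes `p ≤ n` in the set `S`. -/
noncomputable def V (k : ℕ) (S : Set ℕ) (n : ℕ) : ℝ :=
  ∑ p ∈ (Finset.range (n + 1)).filter (fun p => p.Prime ∧ p ∈ S), (Real.log p) ^ k / p

lemma N_one (p : ℕ) : N 2 1 p = 2 ^ p - 1 := by
  have e1 : ⌈(1 : ℝ) * ((2 : ℕ) : ℝ) ^ p⌉₊ = 2 ^ p := by
    rw [one_mul]
    have : (((2 : ℕ) : ℝ) ^ p) = ((2 ^ p : ℕ) : ℝ) := by push_cast; rfl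
    rw [this, Nat.ceil_natCast]
  unfold N
  rw [e1]

/-- the prime factors of `2 ^ p - 1` exceed `p` -/
lemma factor_lt {p l : ℕ} (hp : p.Prime) (hl : l.Prime) (hd : l ∣ 2 ^ p - 1) : p < l := by
  have : Fact l.Prime := ⟨hl⟩
  have : Fact p.Prime := ⟨hp⟩
  have h1 : (2 : ZMod l) ^ p = 1 := by
    have h3 : ((2 ^ p - 1 : ℕ) : ZMod l) = 0 := (ZMod.natCast_eq_zero_iff _ _).2 hd
    rw [Nat.cast_sub Nat.one_le_two_pow] at h3
    push_cast at h3
    exact sub_eq_zero.1 h3
  have h2 : (2 : ZMod l) ≠ 1 := by
    intro h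
    have : (1 : ZMod l) = 0 := by linear_combination h
    exact one_ne_zero this
  have h4 : orderOf (2 : ZMod l) = p := orderOf_eq_prime h1 h2
  have h5 : (2 : ZMod l) ≠ 0 := by
    intro h
    rw [h, zero_pow hp.ne_zero] at h1
    exact zero_ne_one h1
  have h6 : orderOf (2 : ZMod l) ∣ l - 1 := orderOf_dvd_of_pow_eq_one (ZMod.pow_card_sub_one_eq_one h5)
  rw [h4] at h6
  have h7 : p ≤ l - 1 := Nat.le_of_dvd (by have := hl.two_le; omega) h6
  have := hl.two_le
  omega

lemma large_mersenne {p : ℕ} (hp : p.Prime) : large p (2 ^ p - 1) = (2 ^ p - 1).primeFactorsList.length := by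
  have hM : 2 ^ p - 1 ≠ 0 := by
    have : 2 ^ 2 ≤ 2 ^ p := Nat.pow_le_pow_right (by norm_num) hp.two_le
    omega
  unfold large
  rw [List.filter_eq_self.2]
  intro l hl
  obtain ⟨h1, h2⟩ := (Nat.mem_primeFactorsList hM).1 hl
  simpa using factor_lt hp h1 h2

lemma one_iff {m : ℕ} (hm : m ≠ 0) : m.primeFactorsList.length = 1 ↔ m.Prime := by
  constructor
  · intro h
    obtain ⟨l, hl⟩ := List.length_eq_one_iff.1 h
    have h1 : l ∈ m.primeFactorsList := by rw [hl]; simp
    have h2 := Nat.prod_primeFactorsList hm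
    rw [hl, List.prod_singleton] at h2
    rw [← h2]
    exact Nat.prime_of_mem_primeFactorsList h1
  · intro h
    rw [Nat.primeFactorsList_prime h]
    rfl

/-- At `b = 2`, `β = 1` the counting function is that of the Mersenne numbers with exactly `k` prime factors, and for
`k = 1` that of the Mersenne primes; for almost every `β > 0`, for all `b ≥ 2` and `k ≥ 1`, the number of the primes
`p ≤ n` for which the largest integer below `β * b ^ p` has exactly `k` prime factors exceeding `p` is asymptotic to
`(e ^ γ / log b) * (log n) ^ k / k!`; the same for sets of primes `S` which are not too sparse. -/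
theorem result :
    (∀ p : ℕ, N 2 1 p = 2 ^ p - 1) ∧
    (∀ (S : Set ℕ) (k n : ℕ), K 2 S 1 k n = M S k n) ∧
    (∀ p : ℕ, p.Prime → ((2 ^ p - 1).primeFactorsList.length = 1 ↔ (2 ^ p - 1).Prime)) ∧
    (∀ᵐ β : ℝ, 0 < β → ∀ b : ℕ, 2 ≤ b → ∀ k : ℕ, 1 ≤ k →
      Tendsto (fun n : ℕ => (K b Set.univ β k n : ℝ) / (Real.log n) ^ k) atTop
        (𝓝 (Real.exp Real.eulerMascheroniConstant / Real.log b / k.factorial))) ∧
    (∀ (S : Set ℕ) (k : ℕ), 1 ≤ k → ∀ s c : ℝ, 0 < s → 0 < c →
      (∀ᶠ n : ℕ in atTop, c * (Real.log n) ^ ((k : ℝ) - 1 / 2 + s) ≤ V k S n) →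
      ∀ᵐ β : ℝ, 0 < β → ∀ b : ℕ, 2 ≤ b →
        Tendsto (fun n : ℕ => (K b S β k n : ℝ) / V k S n) atTop
          (𝓝 (Real.exp Real.eulerMascheroniConstant / Real.log b / (k - 1).factorial))) := by
  classical
  have hK : ∀ (b : ℕ) (S : Set ℕ) (β : ℝ) (j n : ℕ),
      K b S β (j + 1) n = Pool.Agent.H538.cA (Pool.Agent.H538.AK j) b S β n := by
    intro b S β j n
    unfold K Pool.Agent.H538.cA
    congr 1
    ext p
    simp only [Finset.mem_filter]
    exact Iff.rfl
  have hV : ∀ (k : ℕ) (S : Set ℕ), V k S = Pool.Agent.H538.vK k S := fun _ _ => rfl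
  refine ⟨N_one, fun S k n => ?_, fun p hp => one_iff ?_, ?_, ?_⟩
  · unfold K M
    congr 1
    ext p
    simp only [Finset.mem_filter]
    refine and_congr_right fun _ => and_congr_right fun hp => and_congr_right fun _ => ?_
    rw [N_one, large_mersenne hp]
  · have : 2 ^ 2 ≤ 2 ^ p := Nat.pow_le_pow_right (by norm_num) hp.two_le
    omega
  · have h1 : ∀ᵐ β : ℝ, ∀ b j : ℕ, 2 ≤ b → 0 < β →
        Tendsto (fun n : ℕ => (K b Set.univ β (j + 1) n : ℝ) / (Real.log n) ^ (j + 1)) atTop
        (𝓝 (Real.exp Real.eulerMascheroniConstant / Real.log b / (j + 1).factorial)) := by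
      rw [ae_all_iff]
      intro b
      rw [ae_all_iff]
      intro j
      by_cases hb : 2 ≤ b
      · filter_upwards [Pool.Agent.H538.law_all hb j] with β hβ _ h0
        simp only [hK]
        exact hβ h0
      · exact Eventually.of_forall fun β h => absurd h hb
    filter_upwards [h1] with β hβ h0 b hb k hk
    obtain ⟨j, rfl⟩ : ∃ j, k = j + 1 := ⟨k - 1, by omega⟩
    exact hβ b j hb h0
  · intro S k hk s c hs hc hfat
    obtain ⟨j, rfl⟩ : ∃ j, k = j + 1 := ⟨k - 1, by omega⟩
    have h2 : ∀ᶠ n : ℕ in atTop, c * (Real.log n) ^ ((j : ℝ) + 1 / 2 + s) ≤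
        Pool.Agent.H538.vK (j + 1) S n := by
      filter_upwards [hfat] with n hn
      rw [hV] at hn
      rw [show (j : ℝ) + 1 / 2 + s = ((j + 1 : ℕ) : ℝ) - 1 / 2 + s by push_cast; ring]
      exact hn
    have h1 : ∀ᵐ β : ℝ, ∀ b : ℕ, 2 ≤ b → 0 < β →
        Tendsto (fun n : ℕ => (K b S β (j + 1) n : ℝ) / V (j + 1) S n) atTop
          (𝓝 (Real.exp Real.eulerMascheroniConstant / Real.log b / j.factorial)) := by
      rw [ae_all_iff]
      intro b
      by_cases hb : 2 ≤ b
      · filter_upwards [Pool.Agent.H538.law_set hb j S hs hc h2] with β hβ _ h0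
        simp only [hK]
        exact hβ h0
      · exact Eventually.of_forall fun β h => absurd h hb
    filter_upwards [h1] with β hβ h0 b hb
    rw [Nat.add_sub_cancel]
    exact hβ b hb h0

end Pool.Agent.Results.MP_9b2bac_nt.ExactlyKPrimeFactors
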