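import Pool.Agent.H538.G10

set_option autoImplicit false

/-!
# Gillies' law: the medium prime factors form a Poisson process

Gillies (1964) conjectured that for a prime `p` and `2 p ≤ A < B ≤ (2 ^ p - 1) ^ (1 / 2)` the number of the prime
factors of the Mersenne number `2 ^ p - 1` in `(A, B]` is Poisson distributed with the mean `log (log B / log A)`, and
deduced a law for the number of the Mersenne primes with the constant `2 / log 2`; the law of Lenstra, Pomerance and
Wagstaff has the constant `e ^ γ / log 2` instead.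

For a base `b ≥ 2`, a real `β > 0` and a prime `p` let `N b β p` be the largest integer below `β * b ^ p`; for `b = 2`
and `β = 1` this is `2 ^ p - 1`.  We prove Gillies' law for almost every amplitude `β`, in a joint form for several
intervals: let `z 0 p < z 1 p < ... < z r p` be levels depending on `p` with `p ≤ z 0 p` and `z r p ≤ exp (p ^ (1 - s))`,
the ratios of the consecutive logarithms being at least `x > 1`.  Then for almost every `β > 0`, for all bases `b ≥ 2`
and all `k 0, ..., k (r - 1)`, the number of the primes `p ≤ n` for which `N b β p` has exactly `k i` prime factors in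
`(z i p, z (i + 1) p]` for all `i < r` is asymptotic to the sum over the primes `p ≤ n` of the products of the Poisson
probabilities of `k i` for the means `log (log z (i + 1) p / log z i p)`; if these means converge, then the proportion
of these primes `p` tends to the product of the limiting Poisson probabilities.  The same holds for the primes `p` of
any set which contains a positive proportion of the primes of `(n / 2, n]` for all large `n`.

So Gillies' law holds (in the metric sense) up to `exp (p ^ (1 - s))`, in agreement with both predictions; at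
`(2 ^ p - 1) ^ (1 / u)` it has to be replaced by Buchstab's function, see `BuchstabLaw`.

Proof.  Fundamental lemma of the sieve for the integers `n` of an interval of length `(z r p) ^ A` with the given
numbers of prime factors (`H538/G2`, `G3`, `G6`); two-dimensional upper bound sieve for the near pairs of exponents
(`G1`, `G7`); law of large numbers from the variance (`G4`, `G5`), where the total weight is large (`G8`-`G10`).
-/

namespace Pool.Agent.Results.MP_9b2bac_nt.GilliesLaw

open Filter Topology MeasureTheory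

/-- The largest integer below `β * b ^ p` (for `β > 0`). -/
noncomputable def N (b : ℕ) (β : ℝ) (p : ℕ) : ℕ := ⌈β * (b : ℝ) ^ p⌉₊ - 1

/-- The number of the primes `l` with `x < l ≤ y` which divide `m`. -/
noncomputable def om (x y : ℝ) (m : ℕ) : ℕ :=
  ((Finset.range (⌊y⌋₊ + 1)).filter (fun l : ℕ => l.Prime ∧ x < (l : ℝ) ∧ l ∣ m)).card

/-- The probability of `k` for the Poisson distribution with the mean `t`. -/
noncomputable def pois (k : ℕ) (t : ℝ) : ℝ := Real.exp (-t) * t ^ k / k.factorial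

/-- Systems of levels `z 0 p, z 1 p, ..., z r p` for the primes `p`: the lowest level is at least `p`, each level is
at least the power of exponent `x > 1` of the previous one, the highest level is at most `exp (p ^ (1 - s))` for some
`s > 0`, and the logarithms of the lowest and of the highest level are of the same order for exponents of the same
order. -/
structure Levels (r : ℕ) (z : ℕ → ℕ → ℝ) : Prop where
  start : ∀ᶠ p : ℕ in atTop, (p : ℝ) ≤ z 0 p
  step : ∃ x : ℝ, 1 < x ∧ ∀ᶠ p : ℕ in atTop, ∀ i < r, z i p ^ x ≤ z (i + 1) p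
  top : ∃ s : ℝ, 0 < s ∧ ∀ᶠ p : ℕ in atTop, Real.log (z r p) ≤ (p : ℝ) ^ (1 - s)
  reg : ∃ C : ℝ, ∀ᶠ p : ℕ in atTop, ∀ q : ℕ, p ≤ q → q ≤ 2 * p →
    Real.log (z 0 p) ≤ C * Real.log (z 0 q) ∧ Real.log (z 0 q) ≤ C * Real.log (z 0 p) ∧
    Real.log (z r p) ≤ C * Real.log (z r q) ∧ Real.log (z r q) ≤ C * Real.log (z r p)

open Classical in
/-- The set `S` contains a positive proportion of the primes of `(n / 2, n]`, for all large `n`. -/
def Thick (S : Set ℕ) : Prop := ∃ c : ℝ, 0 < c ∧ ∀ᶠ n : ℕ in atTop,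
  c * (n / Real.log n) ≤ ((Finset.Ioc (n / 2) n).filter (fun p => p.Prime ∧ p ∈ S)).card

/-- The mean of the number of the prime factors in `(z i p, z (i + 1) p]`. -/
noncomputable def mean (z : ℕ → ℕ → ℝ) (i p : ℕ) : ℝ := Real.log (Real.log (z (i + 1) p) / Real.log (z i p))

open Classical in
/-- The set of the primes `p ≤ n` in `S`. -/
noncomputable def P (S : Set ℕ) (n : ℕ) : Finset ℕ := (Finset.range (n + 1)).filter (fun p => p.Prime ∧ p ∈ S)

open Classical in
/-- The number of the primes `p ≤ n` in `S` for which `N b β p` has exactly `k i` prime factors in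
`(z i p, z (i + 1) p]` for all `i < r`. -/
noncomputable def G (b r : ℕ) (z : ℕ → ℕ → ℝ) (S : Set ℕ) (β : ℝ) (k : Fin r → ℕ) (n : ℕ) : ℕ :=
  ((P S n).filter (fun p => ∀ i : Fin r, om (z i p) (z (i + 1) p) (N b β p) = k i)).card

lemma N_one (p : ℕ) : N 2 1 p = 2 ^ p - 1 := by
  have e1 : ⌈(1 : ℝ) * ((2 : ℕ) : ℝ) ^ p⌉₊ = 2 ^ p := by
    rw [one_mul]
    have : (((2 : ℕ) : ℝ) ^ p) = ((2 ^ p : ℕ) : ℝ) := by push_cast; rfl
    rw [this, Nat.ceil_natCast]
  unfold N
  rw [e1]

lemma om_eq (x y : ℝ) (m : ℕ) : (Pool.Agent.H538.DV (Pool.Agent.H538.PJ x y) m).card = om x y m := by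
  unfold Pool.Agent.H538.DV Pool.Agent.H538.PJ Pool.Agent.H538.PZ om
  congr 1
  ext l
  simp only [Finset.mem_filter, Finset.mem_Ioc, Finset.mem_range]
  constructor
  · rintro ⟨⟨⟨h1, h2⟩, h3⟩, h4⟩
    exact ⟨by omega, h3, (Nat.floor_lt' h3.ne_zero).1 h1, h4⟩
  · rintro ⟨h1, h2, h3, h4⟩
    exact ⟨⟨⟨(Nat.floor_lt' h2.ne_zero).2 h3, by omega⟩, h2⟩, h4⟩

lemma G_eq (b r : ℕ) (z : ℕ → ℕ → ℝ) (S : Set ℕ) (β : ℝ) (k : Fin r → ℕ) (n : ℕ) :
    G b r z S β k n = Pool.Agent.H538.cA (Pool.Agent.H538.EV r z k) b S β n := by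
  classical
  unfold G P Pool.Agent.H538.cA Pool.Agent.H538.EV
  rw [Finset.filter_filter]
  congr 1
  ext p
  simp only [Finset.mem_filter, om_eq]
  unfold N
  tauto

lemma pois_eq (k : ℕ) {u : ℝ} (hu : 0 < u) : pois k (Real.log u) = Pool.Agent.H538.wgt k u := by
  unfold pois Pool.Agent.H538.wgt
  rw [Real.exp_neg, Real.exp_log hu]

lemma levels_iff {r : ℕ} {z : ℕ → ℕ → ℝ} : Levels r z ↔ Pool.Agent.H538.Levels r z :=
  ⟨fun h => ⟨h.start, h.step, h.top, h.reg⟩, fun h => ⟨h.start, h.step, h.top, h.reg⟩⟩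

lemma log_two_mul_le {p q : ℕ} (hp : 2 ≤ p) (hpq : p ≤ q) (hq : q ≤ 2 * p) :
    Real.log p ≤ Real.log q ∧ Real.log q ≤ 2 * Real.log p := by
  have hp0 : (0 : ℝ) < p := by exact_mod_cast (by omega : 0 < p)
  have hq0 : (0 : ℝ) < q := by exact_mod_cast (by omega : 0 < q)
  refine ⟨Real.log_le_log hp0 (by exact_mod_cast hpq), ?_⟩
  have h1 : (q : ℝ) ≤ (p : ℝ) ^ 2 := by
    have : q ≤ p ^ 2 := by nlinarith
    exact_mod_cast this
  have h2 := Real.log_le_log hq0 h1
  rwa [Real.log_pow, Nat.cast_ofNat] at h2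

/-- a common exponent -/
lemma exists_step {r : ℕ} {a : ℕ → ℝ} (h0 : 0 < a 0) (ha : ∀ i < r, a i < a (i + 1)) :
    (∀ i ≤ r, 0 < a i) ∧ ∃ x : ℝ, 1 < x ∧ ∀ i < r, a i * x ≤ a (i + 1) := by
  have hpos : ∀ i ≤ r, 0 < a i := by
    intro i
    induction i with
    | zero => intro _; exact h0
    | succ i ih => intro hi; exact (ih (by omega)).trans (ha i (by omega))
  refine ⟨hpos, ?_⟩
  clear h0
  induction r with
  | zero => exact ⟨2, by norm_num, fun i hi => absurd hi (Nat.not_lt_zero i)⟩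
  | succ r ih =>
    obtain ⟨x, hx, h⟩ := ih (fun i hi => ha i (by omega)) (fun i hi => hpos i (by omega))
    have h1 := hpos r (by omega)
    have h2 := ha r (by omega)
    have h3 : 1 < a (r + 1) / a r := by rw [lt_div_iff₀ h1]; linarith
    refine ⟨min x (a (r + 1) / a r), lt_min hx h3, fun i hi => ?_⟩
    by_cases hi2 : i < r
    · exact (mul_le_mul_of_nonneg_left (min_le_left _ _) (hpos i (by omega)).le).trans (h i hi2)
    · have : i = r := by omega
      subst this
      refine (mul_le_mul_of_nonneg_left (min_le_right _ _) h1.le).trans (le_of_eq ?_)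
      field_simp

/-- the powers of `p` are levels -/
lemma levels_pow {r : ℕ} {a : ℕ → ℝ} (h0 : 1 ≤ a 0) (ha : ∀ i < r, a i < a (i + 1)) :
    Levels r (fun i p => (p : ℝ) ^ a i) := by
  obtain ⟨hpos, x, hx, hstep⟩ := exists_step (by linarith) ha
  have hr := hpos r le_rfl
  refine ⟨?_, ⟨x, hx, ?_⟩, ⟨1 / 2, by norm_num, ?_⟩, ⟨2, ?_⟩⟩
  · filter_upwards [eventually_ge_atTop 1] with p hp
    have hp1 : (1 : ℝ) ≤ p := by exact_mod_cast hp
    calc (p : ℝ) = (p : ℝ) ^ (1 : ℝ) := (Real.rpow_one _).symm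
      _ ≤ _ := Real.rpow_le_rpow_of_exponent_le hp1 h0
  · filter_upwards [eventually_ge_atTop 1] with p hp i hi
    have hp1 : (1 : ℝ) ≤ p := by exact_mod_cast hp
    rw [← Real.rpow_mul (by linarith)]
    exact Real.rpow_le_rpow_of_exponent_le hp1 (hstep i hi)
  · have h1 := (isLittleO_log_rpow_atTop (show (0 : ℝ) < 1 / 2 by norm_num)).bound
      (show (0 : ℝ) < 1 / a r by positivity)
    filter_upwards [tendsto_natCast_atTop_atTop.eventually h1, eventually_ge_atTop 1] with p hp hp1
    have hp1' : (1 : ℝ) ≤ p := by exact_mod_cast hp1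
    have hl := Real.log_nonneg hp1'
    rw [Real.norm_of_nonneg hl, Real.norm_of_nonneg (by positivity)] at hp
    rw [Real.log_rpow (by linarith), show (1 : ℝ) - 1 / 2 = 1 / 2 by norm_num]
    rw [one_div, inv_mul_eq_div, le_div_iff₀ hr] at hp
    linarith
  · filter_upwards [eventually_ge_atTop 2] with p hp q hpq hq
    obtain ⟨h1, h2⟩ := log_two_mul_le hp hpq hq
    have hp0 : (0 : ℝ) < p := by exact_mod_cast (by omega : 0 < p)
    have hq0 : (0 : ℝ) < q := by exact_mod_cast (by omega : 0 < q)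
    have hl : 0 ≤ Real.log p := Real.log_nonneg (by exact_mod_cast (by omega : 1 ≤ p))
    rw [Real.log_rpow hp0, Real.log_rpow hq0, Real.log_rpow hp0, Real.log_rpow hq0]
    have g0 := hpos 0 (Nat.zero_le r)
    refine ⟨?_, ?_, ?_, ?_⟩ <;> nlinarith

/-- the two levels `p` and `exp (p ^ (1 - s))` -/
lemma levels_exp {s : ℝ} (hs : 0 < s) (hs1 : s < 1) :
    Levels 1 (fun i p => if i = 0 then (p : ℝ) else Real.exp ((p : ℝ) ^ (1 - s))) := by
  have h1s : 0 < 1 - s := by linarith
  refine ⟨?_, ⟨2, by norm_num, ?_⟩, ⟨s, hs, ?_⟩, ⟨2, ?_⟩⟩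
  · exact Eventually.of_forall fun p => by simp
  · have h1 := (isLittleO_log_rpow_atTop h1s).bound (show (0 : ℝ) < 1 / 2 by positivity)
    filter_upwards [tendsto_natCast_atTop_atTop.eventually h1, eventually_ge_atTop 1] with p hp hp1 i hi
    have hi0 : i = 0 := by omega
    subst hi0
    have hp1' : (1 : ℝ) ≤ p := by exact_mod_cast hp1
    have hl := Real.log_nonneg hp1'
    rw [Real.norm_of_nonneg hl, Real.norm_of_nonneg (by positivity)] at hp
    simp only [if_true, zero_add, one_ne_zero, if_false]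
    rw [Real.rpow_def_of_pos (by linarith), Real.exp_le_exp]
    linarith
  · refine Eventually.of_forall fun p => ?_
    simp
  · filter_upwards [eventually_ge_atTop 2] with p hp q hpq hq
    obtain ⟨h1, h2⟩ := log_two_mul_le hp hpq hq
    have hp1 : (1 : ℝ) ≤ p := by exact_mod_cast (by omega : 1 ≤ p)
    have hpq' : (p : ℝ) ≤ q := by exact_mod_cast hpq
    have hq' : (q : ℝ) ≤ 2 * p := by exact_mod_cast hq
    have hl := Real.log_nonneg hp1
    simp only [if_true, one_ne_zero, if_false, Real.log_exp]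
    have g1 : (p : ℝ) ^ (1 - s) ≤ (q : ℝ) ^ (1 - s) := Real.rpow_le_rpow (by linarith) hpq' h1s.le
    have g2 : (q : ℝ) ^ (1 - s) ≤ 2 * (p : ℝ) ^ (1 - s) := by
      calc (q : ℝ) ^ (1 - s) ≤ (2 * p) ^ (1 - s) := Real.rpow_le_rpow (by linarith) hq' h1s.le
        _ = 2 ^ (1 - s) * (p : ℝ) ^ (1 - s) := Real.mul_rpow (by norm_num) (by linarith)
        _ ≤ 2 ^ (1 : ℝ) * (p : ℝ) ^ (1 - s) := by
            apply mul_le_mul_of_nonneg_right _ (by positivity)
            exact Real.rpow_le_rpow_of_exponent_le (by norm_num) (by linarith)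
        _ = _ := by rw [Real.rpow_one]
    have g3 : 0 ≤ (p : ℝ) ^ (1 - s) := by positivity
    refine ⟨?_, ?_, ?_, ?_⟩ <;> linarith

theorem law {r : ℕ} {z : ℕ → ℕ → ℝ} (hz : Levels r z) {S : Set ℕ} (hS : Thick S) : ∀ᵐ β : ℝ, 0 < β →
    ∀ b : ℕ, 2 ≤ b → ∀ k : Fin r → ℕ,
    Tendsto (fun n : ℕ => (G b r z S β k n : ℝ) / ∑ p ∈ P S n, ∏ i : Fin r, pois (k i) (mean z i p)) atTop (𝓝 1) := by
  classical
  have hz' := levels_iff.1 hz
  have h1 : ∀ᵐ β : ℝ, ∀ b : ℕ, ∀ k : Fin r → ℕ, 2 ≤ b → 0 < β →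
      Tendsto (fun n : ℕ => (G b r z S β k n : ℝ) / ∑ p ∈ P S n, ∏ i : Fin r, pois (k i) (mean z i p))
        atTop (𝓝 1) := by
    rw [ae_all_iff]
    intro b
    rw [ae_all_iff]
    intro k
    by_cases hb : 2 ≤ b
    · obtain ⟨x, s, C, Q0, h⟩ := Pool.Agent.H538.exists_LF hz'
      have hw : ∀ᶠ q in atTop, (fun p => ∏ i : Fin r, pois (k i) (mean z i p)) q =
          Pool.Agent.H538.WW' r z k q := by
        filter_upwards [eventually_ge_atTop Q0] with q hq
        unfold Pool.Agent.H538.WW'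
        refine Finset.prod_congr rfl fun i _ => ?_
        exact pois_eq _ (by linarith [h.ustep hq i.2, h.hx])
      filter_upwards [Pool.Agent.H538.law_levels hz' S hS hb k hw] with β hβ _ h0
      have h2 := hβ h0
      refine h2.congr fun n => ?_
      rw [G_eq]
      rfl
    · exact Eventually.of_forall fun β h => absurd h hb
  filter_upwards [h1] with β hβ h0 b hb k
  exact hβ b k hb h0

theorem law_lim {r : ℕ} {z : ℕ → ℕ → ℝ} (hz : Levels r z) {S : Set ℕ} (hS : Thick S) {t : Fin r → ℝ}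
    (ht : ∀ i : Fin r, Tendsto (mean z i) atTop (𝓝 (t i))) : ∀ᵐ β : ℝ, 0 < β →
    ∀ b : ℕ, 2 ≤ b → ∀ k : Fin r → ℕ,
    Tendsto (fun n : ℕ => (G b r z S β k n : ℝ) / (P S n).card) atTop (𝓝 (∏ i : Fin r, pois (k i) (t i))) := by
  classical
  have hz' := levels_iff.1 hz
  obtain ⟨x, s, C, Q0, h⟩ := Pool.Agent.H538.exists_LF hz'
  have hu : ∀ i : Fin r, Tendsto (fun p : ℕ => Real.log (z (i + 1) p) / Real.log (z i p)) atTop
      (𝓝 (Real.exp (t i))) := by
    intro i
    refine ((Real.continuous_exp.tendsto _).comp (ht i)).congr' ?_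
    filter_upwards [eventually_ge_atTop Q0] with q hq
    simp only [Function.comp, mean]
    exact Real.exp_log (by linarith [h.ustep hq i.2, h.hx])
  have h1 : ∀ᵐ β : ℝ, ∀ b : ℕ, ∀ k : Fin r → ℕ, 2 ≤ b → 0 < β →
      Tendsto (fun n : ℕ => (G b r z S β k n : ℝ) / (P S n).card) atTop (𝓝 (∏ i : Fin r, pois (k i) (t i))) := by
    rw [ae_all_iff]
    intro b
    rw [ae_all_iff]
    intro k
    by_cases hb : 2 ≤ b
    · filter_upwards [Pool.Agent.H538.law_limit hz' S hS hu hb k] with β hβ _ h0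
      have h2 := hβ h0
      have e : ∏ i : Fin r, Pool.Agent.H538.wgt (k i) (Real.exp (t i)) = ∏ i : Fin r, pois (k i) (t i) := by
        refine Finset.prod_congr rfl fun i _ => ?_
        rw [← pois_eq _ (Real.exp_pos _), Real.log_exp]
      rw [e] at h2
      refine h2.congr fun n => ?_
      rw [G_eq]
      congr 1
      unfold Pool.Agent.H538.DW P
      rw [Finset.sum_const, nsmul_eq_mul, mul_one]
    · exact Eventually.of_forall fun β h => absurd h hb
  filter_upwards [h1] with β hβ h0 b hb k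
  exact hβ b k hb h0

/-- Gillies' law for almost every amplitude: for `b = 2`, `β = 1` the integers are the Mersenne numbers; the numbers of
the prime factors in the intervals `(z i p, z (i + 1) p]` follow independent Poisson distributions with the means
`log (log z (i + 1) p / log z i p)`, for all levels up to `exp (p ^ (1 - s))` and all thick sets of primes (in
particular for the set of all primes), with limiting proportions if the means converge; in particular for the powers
`p ^ a i` the limiting proportions are the Poisson probabilities for the means `log (a (i + 1) / a i)`; and the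
hypotheses hold for the two levels `p` and `exp (p ^ (1 - s))`. -/
theorem result :
    (∀ p : ℕ, N 2 1 p = 2 ^ p - 1) ∧
    Thick Set.univ ∧
    (∀ (r : ℕ) (z : ℕ → ℕ → ℝ), Levels r z → ∀ S : Set ℕ, Thick S →
      ∀ᵐ β : ℝ, 0 < β → ∀ b : ℕ, 2 ≤ b → ∀ k : Fin r → ℕ,
        Tendsto (fun n : ℕ => (G b r z S β k n : ℝ) / ∑ p ∈ P S n, ∏ i : Fin r, pois (k i) (mean z i p))
          atTop (𝓝 1)) ∧
    (∀ (r : ℕ) (z : ℕ → ℕ → ℝ), Levels r z → ∀ S : Set ℕ, Thick S →
      ∀ t : Fin r → ℝ, (∀ i : Fin r, Tendsto (mean z i) atTop (𝓝 (t i))) →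
      ∀ᵐ β : ℝ, 0 < β → ∀ b : ℕ, 2 ≤ b → ∀ k : Fin r → ℕ,
        Tendsto (fun n : ℕ => (G b r z S β k n : ℝ) / (P S n).card) atTop (𝓝 (∏ i : Fin r, pois (k i) (t i)))) ∧
    (∀ (r : ℕ) (a : ℕ → ℝ), 1 ≤ a 0 → (∀ i < r, a i < a (i + 1)) →
      Levels r (fun i p => (p : ℝ) ^ a i) ∧
      ∀ᵐ β : ℝ, 0 < β → ∀ b : ℕ, 2 ≤ b → ∀ k : Fin r → ℕ,
        Tendsto (fun n : ℕ => (G b r (fun i p => (p : ℝ) ^ a i) Set.univ β k n : ℝ) / (P Set.univ n).card) atTop
          (𝓝 (∏ i : Fin r, pois (k i) (Real.log (a (i + 1) / a i))))) ∧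
    (∀ s : ℝ, 0 < s → s < 1 →
      Levels 1 (fun i p => if i = 0 then (p : ℝ) else Real.exp ((p : ℝ) ^ (1 - s)))) := by
  refine ⟨N_one, Pool.Agent.H538.thick_univ, fun r z hz S hS => law hz hS,
    fun r z hz S hS t ht => law_lim hz hS ht, fun r a h0 ha => ⟨levels_pow h0 ha, ?_⟩,
    fun s hs hs1 => levels_exp hs hs1⟩
  refine law_lim (levels_pow h0 ha) Pool.Agent.H538.thick_univ fun i => ?_
  obtain ⟨hpos, _⟩ := exists_step (by linarith) ha
  refine tendsto_const_nhds.congr' ?_
  filter_upwards [eventually_ge_atTop 2] with p hp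
  have hp1 : (1 : ℝ) < p := by exact_mod_cast (by omega : 1 < p)
  have hl := Real.log_pos hp1
  have h1 := hpos i i.2.le
  unfold mean
  rw [Real.log_rpow (by linarith), Real.log_rpow (by linarith), mul_div_mul_right _ _ hl.ne']

end Pool.Agent.Results.MP_9b2bac_nt.GilliesLaw
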